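import Mathlib
import Pool.Agent.H55.Mark

/-! A Hausdorff pseudocompact Baire paratopological group that is not 2-pseudocompact. -/

namespace Pool.Agent.Results.MP_39d387_al.Q1

open Set Filter Topology Pointwise Pool.Agent.H55.Mark

/-- pseudocompact spaces -/
def Pseudocompact (X : Type) [TopologicalSpace X] : Prop :=
  ∀ 𝒰 : Set (Set X), (∀ U ∈ 𝒰, IsOpen U ∧ U.Nonempty) → LocallyFinite (fun U : 𝒰 => U.1) →
    𝒰.Finite

/-- 2-pseudocompact paratopological groups, written additively -/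
def TwoPseudocompact (G : Type) [AddGroup G] [TopologicalSpace G] : Prop :=
  ∀ U : ℕ → Set G, (∀ n, IsOpen (U n)) → (∀ n, (U n).Nonempty) → (∀ n, U (n + 1) ⊆ U n) →
    (⋂ n, closure (-U n)).Nonempty

abbrev K : Type := UnitAddCircle

abbrev L : Type := Colex (W →₀ ℚ)

theorem exists_phi : ∃ φ : K →+ L, ∀ c : W, ∃ x, φ x = toColex (Finsupp.single c 1) := by
  classical
  let b := Module.Basis.ofVectorSpace ℚ ℝ
  have h1 : ¬ ((b.repr 1).support : Set (Module.Basis.ofVectorSpaceIndex ℚ ℝ))ᶜ.Countable :=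
    fun h => by
      have h2 := h.union (b.repr 1).support.countable_toSet
      rw [compl_union_self, countable_univ_iff] at h2
      exact not_countable (α := ℝ) (b.repr.injective.countable)
  rw [Cardinal.countable_iff_lt_aleph_one, not_lt] at h1
  obtain ⟨e⟩ : Nonempty (W ↪ ↥((b.repr 1).support : Set (Module.Basis.ofVectorSpaceIndex ℚ ℝ))ᶜ) :=
    (Cardinal.le_def _ _).1 (by simpa using h1)
  have he : Function.Injective fun c => (e c).1 := Subtype.val_injective.comp e.injective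
  let ψ : ℝ →+ (W →₀ ℚ) := (Finsupp.lcomapDomain (R := ℚ) _ he ∘ₗ b.repr.toLinearMap).toAddMonoidHom
  have hψ : ∀ x c, ψ x c = b.repr x (e c).1 := fun _ _ => rfl
  refine ⟨QuotientAddGroup.lift _ ψ ?_, fun c => ⟨(b (e c).1 : ℝ), ?_⟩⟩
  · rw [AddSubgroup.zmultiples_le]
    change ψ 1 = 0
    ext c
    exact (hψ 1 c).trans (Finsupp.notMem_support_iff.1 (e c).2)
  · change ψ _ = Finsupp.single c 1
    ext d
    rw [hψ, b.repr_self, Finsupp.single_apply, Finsupp.single_apply]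
    exact if_congr he.eq_iff rfl rfl

theorem bd {S : Set L} (hS : S.Countable) :
    ∃ c : W, ∀ s ∈ S, s < toColex (Finsupp.single c 1) := by
  obtain ⟨c, hc⟩ := bdd (hS.biUnion fun s _ => (ofColex s).support.countable_toSet)
  have h : ∀ s ∈ S, ∀ j, c ≤ j → ofColex s j = 0 := fun s hs j hj => by
    by_contra h0
    exact (hc j (mem_biUnion hs (Finsupp.mem_support_iff.2 h0))).not_ge hj
  refine ⟨c, fun s hs => Finsupp.Colex.lt_iff.2 ⟨c, fun j hj => ?_, ?_⟩⟩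
  · rw [h s hs j hj.le]
    simp [hj.ne]
  · rw [h s hs c le_rfl]
    simp

variable (φ : K →+ L)

theorem dense0 : Dense {x | φ x = 0} := by
  refine (QuotientAddGroup.mk_surjective.denseRange.dense_image QuotientAddGroup.continuous_mk
    Rat.denseRange_cast).mono ?_
  rintro _ ⟨_, ⟨q, rfl⟩, rfl⟩
  have h : q.den • ((q : ℝ) : K) = 0 := by
    rw [← QuotientAddGroup.mk_nsmul, QuotientAddGroup.eq_zero_iff]
    refine ⟨q.num, ?_⟩
    simp [Rat.cast_def, mul_div_cancel₀]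
  have h2 := congrArg φ h
  rw [map_nsmul, map_zero] at h2
  exact (nsmul_eq_zero_iff_right q.den_nz).1 h2

theorem dns {V : Set K} (hV : IsOpen V) (h : V.Nonempty) (c : K) : ∃ y ∈ V, φ y = φ c := by
  obtain ⟨x, hx⟩ := h
  obtain ⟨y, h1, h2⟩ := (dense0 φ).exists_mem_open (hV.preimage (continuous_add_const c))
    ⟨x - c, by simpa using hx⟩
  exact ⟨_, h2, by rw [map_add, show φ y = 0 from h1, zero_add]⟩

def G (_ : K →+ L) : Type := K

noncomputable instance : AddCommGroup (G φ) := inferInstanceAs (AddCommGroup K)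

instance : TopologicalSpace (G φ) where
  IsOpen U := ∀ x ∈ U, ∃ V : Set K, IsOpen V ∧ x ∈ V ∧ ∀ y ∈ V, φ x ≤ φ y → y ∈ U
  isOpen_univ _ _ := ⟨univ, isOpen_univ, trivial, fun _ _ _ => trivial⟩
  isOpen_inter U V hU hV x hx := by
    obtain ⟨A, a1, a2, a3⟩ := hU x hx.1
    obtain ⟨B, b1, b2, b3⟩ := hV x hx.2
    exact ⟨A ∩ B, a1.inter b1, ⟨a2, b2⟩, fun y hy h => ⟨a3 y hy.1 h, b3 y hy.2 h⟩⟩
  isOpen_sUnion S hS x hx := by
    obtain ⟨U, h1, h2⟩ := hx
    obtain ⟨A, a1, a2, a3⟩ := hS U h1 x h2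
    exact ⟨A, a1, a2, fun y hy h => ⟨U, h1, a3 y hy h⟩⟩

theorem op {V : Set K} (hV : IsOpen V) (l : L) : IsOpen (X := G φ) {y | y ∈ V ∧ l ≤ φ y} :=
  fun _ hx => ⟨V, hV, hx.1, fun _ hy h => ⟨hy, hx.2.trans h⟩⟩

theorem op' {V : Set K} (hV : IsOpen V) : IsOpen (X := G φ) V :=
  fun _ hx => ⟨V, hV, hx, fun _ hy _ => hy⟩

instance : ContinuousAdd (G φ) := ⟨continuous_def.2 fun U hU => isOpen_prod_iff.2 fun a b h => by
  obtain ⟨V, h1, h2, h3⟩ := hU _ h
  obtain ⟨u, v, h4, h5, h6, h7, h8⟩ := isOpen_prod_iff.1 (h1.preimage (continuous_add (M := K))) a b h2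
  refine ⟨_, _, op φ h4 (φ a), op φ h5 (φ b), ⟨h6, le_rfl⟩, ⟨h7, le_rfl⟩, fun z hz =>
    h3 _ (h8 (mk_mem_prod hz.1.1 hz.2.1)) ?_⟩
  exact (φ.map_add a b).trans_le ((add_le_add hz.1.2 hz.2.2).trans (φ.map_add _ _).ge)⟩

theorem pc : Pseudocompact (G φ) := fun 𝒰 h hl => by
  choose x hx using fun U : 𝒰 => (h U.1 U.2).2
  choose V v1 v2 v3 using fun U : 𝒰 => (h U.1 U.2).1 _ (hx U)
  have h1 : LocallyFinite V := fun y => by
    obtain ⟨t, t1, t2⟩ := hl y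
    obtain ⟨s, s1, s2, s3⟩ := mem_nhds_iff.1 t1
    obtain ⟨A, a1, a2, a3⟩ := s2 y s3
    refine ⟨A, a1.mem_nhds a2, t2.subset fun U hU => ?_⟩
    rcases le_total (φ y) (φ (x U)) with h2 | h2
    · obtain ⟨z, z1, z2⟩ := dns φ ((v1 U).inter a1) hU (x U)
      exact ⟨z, v3 U z z1.1 z2.ge, s1 (a3 z z1.2 (h2.trans z2.ge))⟩
    · obtain ⟨z, z1, z2⟩ := dns φ ((v1 U).inter a1) hU y
      exact ⟨z, v3 U z z1.1 (h2.trans z2.ge), s1 (a3 z z1.2 z2.ge)⟩
  exact finite_coe_iff.1 (finite_univ_iff.1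
    (h1.finite_nonempty_of_compact.subset fun U _ => ⟨x U, v2 U⟩))

theorem res {R V : Set K} (hR : R ∈ residual K) (hV : IsOpen V) (h : V.Nonempty) (c : K) :
    ∃ y ∈ V ∩ R, φ c ≤ φ y := by
  obtain ⟨T, hT⟩ := isCompact_univ.elim_finite_subcover
    (fun d : {x | φ x = 0} => (· + d.1) ⁻¹' V) (fun d => hV.preimage (continuous_add_const _))
    fun z _ => by
      obtain ⟨y, y1, y2⟩ := dns φ hV h z
      exact mem_iUnion.2 ⟨⟨y - z, by simp [y2]⟩, by simpa using y1⟩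
  have h1 : ∀ᶠ z in residual K, ∀ d ∈ T, z + d.1 ∈ R := (eventually_all_finset T).2 fun d _ =>
    tendsto_residual_of_isOpenMap (continuous_add_const _) (isOpenMap_add_right _) hR
  have h2 := tendsto_residual_of_isOpenMap (Homeomorph.subLeft (c + c)).continuous
    (Homeomorph.subLeft (c + c)).isOpenMap h1
  obtain ⟨z, z1, z2⟩ : ∃ z, (∀ d ∈ T, z + d.1 ∈ R) ∧ φ c ≤ φ z := by
    obtain ⟨z, z1, z2⟩ := (dense_of_mem_residual (inter_mem h1 h2)).nonempty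
    rcases le_total (φ c) (φ z) with h3 | h3
    · exact ⟨z, z1, h3⟩
    · exact ⟨c + c - z, z2, by simpa [le_sub_iff_add_le] using h3⟩
  obtain ⟨d, d1, d2⟩ := mem_iUnion₂.1 (hT (mem_univ z))
  exact ⟨_, ⟨d2, z1 d d1⟩, by rwa [map_add, show φ d.1 = 0 from d.2, add_zero]⟩

variable {φ} (hφ : ∀ c : W, ∃ x, φ x = toColex (Finsupp.single c 1))
include hφ

theorem baire : BaireSpace (G φ) := ⟨fun D ho hd => dense_iff_inter_open.2 fun U hU ⟨x, hx⟩ => by
  obtain ⟨V, v1, v2, v3⟩ := hU x hx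
  have h1 : ∀ n, ∃ O ∈ residual K, ∃ S : Set L, S.Countable ∧
      ∀ y ∈ O, (∀ s ∈ S, s ≤ φ y) → y ∈ D n := fun n => by
    choose A a1 a2 a3 using fun y : D n => ho n y.1 y.2
    obtain ⟨T, t1, t2⟩ := TopologicalSpace.isOpen_iUnion_countable A a1
    refine ⟨⋃ y, A y, residual_of_dense_open (isOpen_iUnion a1) (dense_iff_inter_open.2
      fun B hB hn => ?_), _, t1.image fun y => φ y.1, fun y hy hs => ?_⟩
    · obtain ⟨y, y1, y2⟩ := dense_iff_inter_open.1 (hd n) B (op' φ hB) hn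
      exact ⟨y, y1, mem_iUnion.2 ⟨⟨y, y2⟩, a2 _⟩⟩
    · obtain ⟨z, z1, z2⟩ := mem_iUnion₂.1 (t2 ▸ hy : y ∈ ⋃ i ∈ T, A i)
      exact a3 z y z2 (hs _ ⟨z, z1, rfl⟩)
  choose O o1 S s1 s2 using h1
  obtain ⟨c, hc⟩ := bd ((countable_iUnion s1).insert (φ x))
  obtain ⟨c', hc'⟩ := hφ c
  obtain ⟨y, ⟨y1, y2⟩, y3⟩ := res φ (countable_iInter_mem.2 o1) v1 ⟨x, v2⟩ c'
  rw [hc'] at y3
  exact ⟨y, v3 y y1 ((hc _ (mem_insert _ _)).le.trans y3), mem_iInter.2 fun n =>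
    s2 n y (mem_iInter.1 y2 n) fun s hs =>
      (hc _ (mem_insert_of_mem _ (mem_iUnion.2 ⟨n, hs⟩))).le.trans y3⟩⟩

theorem not_two : ¬ TwoPseudocompact (G φ) := fun h => by
  obtain ⟨c, hc⟩ := bd (countable_singleton 0)
  obtain ⟨a, ha⟩ := hφ c
  have h0 : 0 < φ a := ha ▸ hc 0 rfl
  obtain ⟨x, hx⟩ := h (fun n => {y | y ∈ Metric.ball (0 : K) (1 / ((n : ℝ) + 1)) ∧ φ a ≤ φ y})
    (fun n => op φ Metric.isOpen_ball _) (fun n => by
      obtain ⟨y, y1, y2⟩ := dns φ Metric.isOpen_ball (Metric.nonempty_ball.2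
        (Nat.one_div_pos_of_nat (n := n)) : (Metric.ball (0 : K) _).Nonempty) a
      exact ⟨y, y1, y2.ge⟩)
    fun n y hy => ⟨Metric.ball_subset_ball (α := K) (Nat.one_div_le_one_div n.le_succ)
      hy.1, hy.2⟩
  by_cases hx0 : x = 0
  · obtain ⟨y, y1, y2⟩ := mem_closure_iff.1 (mem_iInter.1 hx 0) _ (op φ isOpen_univ (φ x))
      ⟨trivial, le_rfl⟩
    have h1 : φ a ≤ -φ y := y2.2.trans_eq (φ.map_neg y)
    have h2 : 0 ≤ φ y := φ.map_zero.ge.trans (hx0 ▸ y1.2)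
    exact (h0.trans_le h1).not_ge (neg_nonpos.2 h2)
  · obtain ⟨n, hn⟩ := exists_nat_one_div_lt (norm_pos_iff (E := K).2 hx0)
    obtain ⟨y, y1, y2⟩ := mem_closure_iff.1 (mem_iInter.1 hx n) _
      (op' φ (isOpen_lt continuous_const continuous_norm)) hn
    have h1 := (mem_ball_zero_iff (E := K)).1 y2.1
    exact lt_asymm y1 ((norm_neg (E := K) y).symm.trans_lt h1)

omit hφ in
theorem result : ∃ (G : Type) (_ : AddCommGroup G) (_ : TopologicalSpace G), ContinuousAdd G ∧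
    T2Space G ∧ Pseudocompact G ∧ BaireSpace G ∧ ¬ TwoPseudocompact G := by
  obtain ⟨φ, hφ⟩ := exists_phi
  exact ⟨G φ, inferInstance, inferInstance, inferInstance,
    T2Space.of_injective_continuous (Y := K) (f := id) Function.injective_id
      (continuous_def.2 fun _ h => op' φ h), pc φ, baire hφ, not_two hφ⟩

end Pool.Agent.Results.MP_39d387_al.Q1
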