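import Mathlib

/-! Countably pracompact Baire paratopological groups are 2-pseudocompact. -/

namespace Pool.Agent.Results.MP_39d387_al.Q2

open Set Filter Topology Pointwise

/-- countably pracompact spaces -/
def CountablyPracompact (X : Type*) [TopologicalSpace X] : Prop :=
  ∃ A : Set X, Dense A ∧ ∀ B ⊆ A, B.Infinite → ∃ x, ∀ V ∈ 𝓝 x, (V ∩ B).Infinite

/-- 2-pseudocompact paratopological groups -/
def TwoPseudocompact (G : Type*) [Group G] [TopologicalSpace G] : Prop :=
  ∀ U : ℕ → Set G, (∀ n, IsOpen (U n)) → (∀ n, (U n).Nonempty) → (∀ n, U (n + 1) ⊆ U n) →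
    (⋂ n, closure (U n)⁻¹).Nonempty

theorem result (G : Type*) [Group G] [TopologicalSpace G] [ContinuousMul G] [BaireSpace G]
    (h : CountablyPracompact G) : TwoPseudocompact G := by
  obtain ⟨A, hA, hB⟩ := h
  intro U ho hn hm
  have hm' : Antitone U := antitone_nat_of_succ_le hm
  have h1 : ∀ n, Dense (A * U n) := fun n => by
    obtain ⟨u, hu⟩ := hn n
    refine ((Homeomorph.mulRight u).surjective.denseRange.dense_image
      (Homeomorph.mulRight u).continuous hA).mono ?_
    rintro _ ⟨a, ha, rfl⟩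
    exact mul_mem_mul ha hu
  obtain ⟨z, hz⟩ := (dense_iInter_of_isOpen (fun n => (ho n).mul_left) h1).nonempty
  choose c hc u hu hcu using mem_iInter.1 hz
  obtain ⟨x, hx⟩ : ∃ x, ∀ V ∈ 𝓝 x, (c ⁻¹' V).Infinite := by
    by_cases hf : (range c).Infinite
    · obtain ⟨x, hx⟩ := hB _ (range_subset_iff.2 hc) hf
      refine ⟨x, fun V hV hfin => hx V hV ((hfin.image c).subset ?_)⟩
      rintro _ ⟨h2, n, rfl⟩
      exact ⟨n, h2, rfl⟩
    · have := (not_infinite.1 hf).to_subtype
      obtain ⟨⟨x, _⟩, hx⟩ := Finite.exists_infinite_fiber (rangeFactorization c)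
      refine ⟨x, fun V hV => (infinite_coe_iff.1 hx).mono fun n hn => ?_⟩
      have h2 : c n = x := congrArg Subtype.val hn
      exact mem_preimage.2 (h2 ▸ mem_of_mem_nhds hV)
  refine ⟨z⁻¹ * x, mem_iInter.2 fun n => mem_closure_iff_nhds.2 fun V hV => ?_⟩
  obtain ⟨m, h2, h3⟩ := (hx _ ((continuous_const_mul z⁻¹).tendsto x hV)).exists_gt n
  refine ⟨z⁻¹ * c m, h2, ?_⟩
  have h4 : z = c m * u m := (hcu m).symm
  rw [Set.mem_inv, h4]
  simpa using hm' h3.le (hu m)

end Pool.Agent.Results.MP_39d387_al.Q2
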